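import Pool.Agent.P.MP_bc8dca_nt.Defs

namespace Pool.Agent.P.MP_bc8dca_nt

open Finset

/-- number of odd steps among the first `i` steps -/
def od : ℕ → ℕ → ℕ
  | 0, _ => 0
  | i + 1, m => m % 2 + od i (T m)

theorem od_le (i m : ℕ) : od i m ≤ i := by
  induction i generalizing m with
  | zero => simp [od]
  | succ i ih => have := ih (T m); simp only [od]; omega

theorem T_even (x : ℕ) : T (2 * x) = x := by
  unfold T; rw [if_neg (by omega)]; omega

theorem T_odd (x : ℕ) : T (2 * x + 1) = 3 * x + 2 := by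
  unfold T; rw [if_pos (by omega)]; omega

theorem sum_two_mul (g : ℕ → ℝ) (n : ℕ) :
    ∑ u ∈ range (2 * n), g u = ∑ u ∈ range n, (g (2 * u) + g (2 * u + 1)) := by
  induction n with
  | zero => simp
  | succ n ih => rw [show 2 * (n + 1) = 2 * n + 1 + 1 by ring, sum_range_succ, sum_range_succ,
      ih, sum_range_succ]; ring

/-- exact equidistribution of parity vectors on progressions of odd difference -/
theorem moment (z : ℝ) (i : ℕ) : ∀ f M c : ℕ, i ≤ f → M % 2 = 1 →
    ∑ u ∈ range (2 ^ f), z ^ od i (M * u + c) = 2 ^ (f - i) * (1 + z) ^ i := by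
  induction i with
  | zero => intro f M c _ _; simp [od]
  | succ i ih =>
    intro f M c hf hM
    obtain ⟨f, rfl⟩ : ∃ g, f = g + 1 := ⟨f - 1, by omega⟩
    rw [pow_succ', sum_two_mul, sum_add_distrib]
    have ev : ∀ d : ℕ, ∑ u ∈ range (2 ^ f), z ^ od (i + 1) (2 * (M * u + d)) =
        2 ^ (f - i) * (1 + z) ^ i := by
      intro d
      rw [← ih f M d (by omega) hM]
      apply sum_congr rfl
      intro u _
      simp only [od, T_even]
      congr 1
      omega
    have odd : ∀ d : ℕ, ∑ u ∈ range (2 ^ f), z ^ od (i + 1) (2 * (M * u + d) + 1) =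
        z * (2 ^ (f - i) * (1 + z) ^ i) := by
      intro d
      rw [← ih f (3 * M) (3 * d + 2) (by omega) (by omega), mul_sum]
      apply sum_congr rfl
      intro u _
      simp only [od, T_odd]
      rw [show (2 * (M * u + d) + 1) % 2 = 1 by omega, pow_add, pow_one]
      congr 3
      ring
    rw [show f + 1 - (i + 1) = f - i by omega]
    obtain ⟨M', rfl⟩ : ∃ M', M = 2 * M' + 1 := ⟨M / 2, by omega⟩
    rcases Nat.even_or_odd' c with ⟨d, rfl | rfl⟩
    · have e1 : ∀ u, (2 * M' + 1) * (2 * u) + 2 * d = 2 * ((2 * M' + 1) * u + d) := by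
        intro u; ring
      have e2 : ∀ u, (2 * M' + 1) * (2 * u + 1) + 2 * d =
          2 * ((2 * M' + 1) * u + (M' + d)) + 1 := by intro u; ring
      simp only [e1, e2]
      rw [ev, odd]; ring
    · have e1 : ∀ u, (2 * M' + 1) * (2 * u) + (2 * d + 1) = 2 * ((2 * M' + 1) * u + d) + 1 := by
        intro u; ring
      have e2 : ∀ u, (2 * M' + 1) * (2 * u + 1) + (2 * d + 1) =
          2 * ((2 * M' + 1) * u + (M' + d + 1)) := by intro u; ring
      simp only [e1, e2]
      rw [ev, odd]; ring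

theorem iter_lower (i m : ℕ) : 3 ^ od i m * m ≤ 2 ^ i * T^[i] m := by
  induction i generalizing m with
  | zero => simp [od]
  | succ i ih =>
    have h := ih (T m)
    rw [Function.iterate_succ_apply]
    simp only [od]
    rcases Nat.even_or_odd' m with ⟨d, rfl | rfl⟩
    · rw [T_even] at h ⊢
      rw [show 2 * d % 2 = 0 by omega, zero_add, pow_succ]
      nlinarith
    · rw [T_odd] at h ⊢
      rw [show (2 * d + 1) % 2 = 1 by omega, pow_add, pow_one, pow_succ]
      have : 0 ≤ 3 ^ od i (3 * d + 2) := Nat.zero_le _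
      nlinarith

theorem iter_upper (B : ℝ) (hB : 0 < B) (i m : ℕ) (h : ∀ j < i, B ≤ (T^[j] m : ℕ)) :
    (2 : ℝ) ^ i * (T^[i] m : ℕ) ≤ 3 ^ od i m * m * (1 + 1 / B) ^ i := by
  induction i generalizing m with
  | zero => simp [od]
  | succ i ih =>
    have h1 := ih (T m) (fun j hj => by
      have := h (j + 1) (by omega)
      rwa [Function.iterate_succ_apply] at this)
    have h0 : B ≤ m := by simpa using h 0 (by omega)
    rw [Function.iterate_succ_apply]
    simp only [od]
    have p1 : 0 < (1 + 1 / B) ^ i := by positivity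
    have p2 : 0 < 1 / B := by positivity
    have key : 2 * ((T m : ℕ) : ℝ) ≤ 3 ^ (m % 2) * m * (1 + 1 / B) := by
      have hm : 1 ≤ (m : ℝ) * (1 / B) := by
        rw [mul_one_div, le_div_iff₀ hB]; linarith
      rcases Nat.even_or_odd' m with ⟨d, rfl | rfl⟩
      · rw [T_even, show 2 * d % 2 = 0 by omega]
        push_cast at hm ⊢
        nlinarith
      · rw [T_odd, show (2 * d + 1) % 2 = 1 by omega]
        push_cast at hm ⊢
        nlinarith
    have p3 : (0 : ℝ) < 3 ^ od i (T m) := by positivity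
    calc (2 : ℝ) ^ (i + 1) * (T^[i] (T m) : ℕ) = 2 * (2 ^ i * (T^[i] (T m) : ℕ)) := by ring
      _ ≤ 2 * (3 ^ od i (T m) * (T m : ℕ) * (1 + 1 / B) ^ i) := by linarith
      _ = (2 * (T m : ℕ)) * (3 ^ od i (T m) * (1 + 1 / B) ^ i) := by ring
      _ ≤ (3 ^ (m % 2) * m * (1 + 1 / B)) * (3 ^ od i (T m) * (1 + 1 / B) ^ i) :=
          mul_le_mul_of_nonneg_right key (by positivity)
      _ = _ := by rw [pow_add, pow_succ]; ring

/-- Chernoff bound, both tails at once through the sign of `s` -/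
theorem chernoff (s t : ℝ) (i f M c : ℕ) (hi : i ≤ f) (hM : M % 2 = 1) :
    (((range (2 ^ f)).filter (fun u => t ≤ s * ((od i (M * u + c) : ℝ) - i / 2))).card : ℝ) ≤
      2 ^ f * Real.exp (s ^ 2 / 8 * f - t) := by
  have h1 : (((range (2 ^ f)).filter
      (fun u => t ≤ s * ((od i (M * u + c) : ℝ) - i / 2))).card : ℝ) ≤
      ∑ u ∈ range (2 ^ f), Real.exp s ^ od i (M * u + c) * Real.exp (-(s * i / 2) - t) := by
    rw [card_eq_sum_ones, Nat.cast_sum, sum_filter]
    apply sum_le_sum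
    intro u _
    split_ifs with h
    · rw [← Real.exp_nat_mul, ← Real.exp_add, Nat.cast_one]
      apply Real.one_le_exp
      linarith
    · positivity
  rw [← sum_mul, moment _ i f M c hi hM] at h1
  refine h1.trans ?_
  have h2 : (1 + Real.exp s) = 2 * (Real.exp (s / 2) * Real.cosh (s / 2)) := by
    rw [Real.cosh_eq]
    have e1 : Real.exp (s / 2) * Real.exp (s / 2) = Real.exp s := by
      rw [← Real.exp_add]; congr 1; ring
    have e2 : Real.exp (s / 2) * Real.exp (-(s / 2)) = 1 := by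
      rw [← Real.exp_add]; simp
    nlinarith
  have h3 : Real.cosh (s / 2) ≤ Real.exp (s ^ 2 / 8) := by
    have := Real.cosh_le_exp_half_sq (s / 2)
    rwa [show (s / 2) ^ 2 / 2 = s ^ 2 / 8 by ring] at this
  have h4 : (1 + Real.exp s) ^ i ≤ 2 ^ i * Real.exp (s * i / 2 + s ^ 2 / 8 * f) := by
    have hi' : (i : ℝ) ≤ f := by exact_mod_cast hi
    calc (1 + Real.exp s) ^ i ≤ (2 * (Real.exp (s / 2) * Real.exp (s ^ 2 / 8))) ^ i := by
          apply pow_le_pow_left₀ (by positivity)
          rw [h2]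
          have := Real.exp_pos (s / 2)
          nlinarith
      _ = 2 ^ i * Real.exp (i * (s / 2 + s ^ 2 / 8)) := by
          rw [mul_pow, ← Real.exp_add, ← Real.exp_nat_mul]
      _ ≤ _ := by
          apply mul_le_mul_of_nonneg_left _ (by positivity)
          apply Real.exp_le_exp.2
          have : 0 ≤ s ^ 2 / 8 := by positivity
          nlinarith
  calc (2 : ℝ) ^ (f - i) * (1 + Real.exp s) ^ i * Real.exp (-(s * i / 2) - t)
      ≤ 2 ^ (f - i) * (2 ^ i * Real.exp (s * i / 2 + s ^ 2 / 8 * f)) *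
        Real.exp (-(s * i / 2) - t) := by gcongr
    _ = 2 ^ f * Real.exp (s ^ 2 / 8 * f - t) := by
        rw [← mul_assoc, ← pow_add, Nat.sub_add_cancel hi, mul_assoc, ← Real.exp_add]
        congr 2; ring

/-- typical behaviour during the first `f` steps -/
def Typ (ε : ℝ) (f m : ℕ) : Prop :=
  (∀ i ≤ f, (i : ℝ) / 2 - ε * f < od i m) ∧ (od f m : ℝ) < f / 2 + ε * f

open Classical in
theorem atyp_card (ε : ℝ) (hε : 0 < ε) (f M c : ℕ) (hM : M % 2 = 1) :
    (((range (2 ^ f)).filter (fun u => ¬ Typ ε f (M * u + c))).card : ℝ) ≤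
      (f + 2) * (2 ^ f * Real.exp (-(2 * ε ^ 2 * f))) := by
  have hsub : (range (2 ^ f)).filter (fun u => ¬ Typ ε f (M * u + c)) ⊆
      ((range (f + 1)).biUnion (fun i => (range (2 ^ f)).filter
        (fun u => 4 * ε ^ 2 * f ≤ (-(4 * ε)) * ((od i (M * u + c) : ℝ) - i / 2)))) ∪
      (range (2 ^ f)).filter
        (fun u => 4 * ε ^ 2 * f ≤ (4 * ε) * ((od f (M * u + c) : ℝ) - f / 2)) := by
    intro u hu
    rw [mem_filter] at hu
    obtain ⟨hu, h⟩ := hu
    unfold Typ at h
    rw [not_and_or] at h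
    rw [mem_union]
    rcases h with h | h
    · left
      push Not at h
      obtain ⟨i, hi, h⟩ := h
      rw [mem_biUnion]
      refine ⟨i, by simp; omega, mem_filter.2 ⟨hu, ?_⟩⟩
      nlinarith
    · right
      refine mem_filter.2 ⟨hu, ?_⟩
      rw [not_lt] at h
      nlinarith
  have e1 : (-(4 * ε)) ^ 2 / 8 * f - 4 * ε ^ 2 * f = -(2 * ε ^ 2 * f) := by ring
  have e2 : (4 * ε) ^ 2 / 8 * f - 4 * ε ^ 2 * f = -(2 * ε ^ 2 * f) := by ring
  have h1 := chernoff (4 * ε) (4 * ε ^ 2 * f) f f M c le_rfl hM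
  rw [e2] at h1
  have h2 : ∀ i ∈ range (f + 1), (((range (2 ^ f)).filter
        (fun u => 4 * ε ^ 2 * f ≤ (-(4 * ε)) * ((od i (M * u + c) : ℝ) - i / 2))).card : ℝ) ≤
        2 ^ f * Real.exp (-(2 * ε ^ 2 * f)) := by
    intro i hi
    have := chernoff (-(4 * ε)) (4 * ε ^ 2 * f) i f M c (by simp at hi; omega) hM
    rwa [e1] at this
  have h3 := sum_le_sum h2
  rw [sum_const, card_range, nsmul_eq_mul] at h3
  have h4 := (card_le_card hsub).trans ((card_union_le _ _).trans
    (Nat.add_le_add_right card_biUnion_le _))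
  have h5 := (Nat.cast_le (α := ℝ)).2 h4
  push_cast at h5 h3
  linarith

end Pool.Agent.P.MP_bc8dca_nt
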