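import Mathlib

namespace Pool.Agent.P.MP_bc8dca_nt

/-- The 3x+1 map. -/
def T (n : ℕ) : ℕ := if n % 2 = 1 then (3 * n + 1) / 2 else n / 2

/-- The total stopping time, `∞` if `1` is never reached. -/
noncomputable def sigma (n : ℕ) : ENNReal := ⨅ (k : ℕ) (_ : T^[k] n = 1), (k : ENNReal)

/-- The scaled stopping constant. -/
noncomputable def gamma3 : ENNReal :=
  Filter.limsup (fun n : ℕ => sigma n / ENNReal.ofReal (Real.log n)) Filter.atTop

end Pool.Agent.P.MP_bc8dca_nt
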