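import Pool.Agent.P.MP_bc8dca_nt.Basic

namespace Pool.Agent.P.MP_bc8dca_nt

open Finset

/-- `y` reaches `1` within `K` steps -/
def Reach (y : ℕ) (K : ℝ) : Prop := ∃ j : ℕ, (j : ℝ) ≤ K ∧ T^[j] y = 1

open Classical in
/-- number of `u < 2 ^ f` with a property -/
noncomputable def cnt (f : ℕ) (p : ℕ → Prop) : ℝ := (((range (2 ^ f)).filter p).card : ℝ)

theorem Reach.mono {y : ℕ} {K K' : ℝ} (h : Reach y K) (hK : K ≤ K') : Reach y K' := by
  obtain ⟨j, hj, h⟩ := h
  exact ⟨j, hj.trans hK, h⟩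

theorem one_add_pow_le (B : ℝ) (hB : 0 < B) (f : ℕ) (hf : (f : ℝ) ≤ B) :
    (1 + 1 / B) ^ f ≤ 1 + 2 * f / B := by
  have h1 : (1 + 1 / B) ^ f ≤ Real.exp (f / B) := by
    calc (1 + 1 / B) ^ f ≤ (Real.exp (1 / B)) ^ f := by
          apply pow_le_pow_left₀ (by positivity)
          have := Real.add_one_le_exp (1 / B)
          linarith
      _ = Real.exp (f / B) := by rw [← Real.exp_nat_mul]; congr 1; ring
  have h0 : 0 ≤ (f : ℝ) / B := by positivity
  have h2 : |(f : ℝ) / B| ≤ 1 := by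
    rw [abs_of_nonneg h0, div_le_one hB]; exact hf
  have h3 := Real.abs_exp_sub_one_le h2
  rw [abs_of_nonneg h0] at h3
  have h4 := le_abs_self (Real.exp (f / B) - 1)
  have : 2 * (f : ℝ) / B = 2 * (f / B) := by ring
  linarith

/-- the fibre bound -/
theorem fibre (S : Finset ℕ) (f f' M c R : ℕ) (B K : ℝ) (hB : 1 < B) (hfB : (f : ℝ) ≤ B)
    (hM : 0 < M) (hc : c ≤ M) (hR : 2 * f * 2 ^ f / B < R)
    (h1 : ∀ u ∈ S, u < 2 ^ f)
    (h2 : ∀ u ∈ S, ∀ j ≤ f, B ≤ (T^[j] (M * u + c) : ℕ))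
    (h3 : ∀ u ∈ S, T^[f] (M * u + c) < 2 ^ f')
    (h4 : ∀ u ∈ S, Reach (M * u + c) (f + K)) :
    (S.card : ℝ) ≤ cnt f' (fun y => Reach y K) * ((f + 1) * R) := by
  classical
  have hB0 : 0 < B := by linarith
  have hR0 : 0 < R := by
    have : (0 : ℝ) ≤ 2 * f * 2 ^ f / B := by positivity
    exact_mod_cast this.trans_lt hR
  have key : ∀ u ∈ S, ∀ v ∈ S, u ≤ v → T^[f] (M * u + c) = T^[f] (M * v + c) →
      od f (M * u + c) = od f (M * v + c) → v - u < R := by
    intro u hu v hv huv e1 e2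
    have a1 := iter_upper B hB0 f (M * u + c) (fun j hj => h2 u hu j hj.le)
    have a2 := (Nat.cast_le (α := ℝ)).2 (iter_lower f (M * v + c))
    rw [← e1, ← e2] at a2
    push_cast at a1 a2
    have a3 := one_add_pow_le B hB0 f hfB
    have p3 : (0 : ℝ) < 3 ^ od f (M * u + c) := by positivity
    have a4 : (M : ℝ) * v + c ≤ (M * u + c) * (1 + 1 / B) ^ f := by
      have := a2.trans a1
      rw [mul_assoc] at this
      exact le_of_mul_le_mul_left this p3
    have a5 : (M : ℝ) * v + c ≤ (M * u + c) * (1 + 2 * f / B) :=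
      a4.trans (mul_le_mul_of_nonneg_left a3 (by positivity))
    have a6 : (M : ℝ) * u + c ≤ M * 2 ^ f := by
      have b1 : u + 1 ≤ 2 ^ f := h1 u hu
      have b2 : M * u + c ≤ M * 2 ^ f := by nlinarith
      exact_mod_cast b2
    have hM' : (0 : ℝ) < M := by exact_mod_cast hM
    have p4 : (0 : ℝ) ≤ 2 * f / B := by positivity
    have a7 : (M : ℝ) * (v - u) ≤ M * (2 * f * 2 ^ f / B) := by
      have : (M * u + c) * (2 * f / B) ≤ (M : ℝ) * 2 ^ f * (2 * f / B) :=
        mul_le_mul_of_nonneg_right a6 p4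
      have e : (M : ℝ) * (2 * f * 2 ^ f / B) = M * 2 ^ f * (2 * f / B) := by ring
      nlinarith
    have a8 : (v : ℝ) - u < R := (le_of_mul_le_mul_left a7 hM').trans_lt hR
    have : ((v - u : ℕ) : ℝ) < R := by rw [Nat.cast_sub huv]; exact a8
    exact_mod_cast this
  have hcard : S.card ≤ (((range (2 ^ f')).filter (fun y => Reach y K)) ×ˢ
      (range (f + 1) ×ˢ range R)).card := by
    apply card_le_card_of_injOn
      (fun u => (T^[f] (M * u + c), od f (M * u + c), u % R))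
    · intro u hu
      have hu : u ∈ S := hu
      simp only [coe_product, Set.mem_prod, mem_coe, mem_filter, mem_range]
      refine ⟨⟨h3 u hu, ?_⟩, Nat.lt_succ_of_le (od_le _ _), Nat.mod_lt _ hR0⟩
      obtain ⟨j, hj, e⟩ := h4 u hu
      have hjf : f < j := by
        by_contra hh
        have := h2 u hu j (by omega)
        rw [e] at this
        push_cast at this
        linarith
      refine ⟨j - f, ?_, ?_⟩
      · rw [Nat.cast_sub hjf.le]; linarith
      · rw [← Function.iterate_add_apply, Nat.sub_add_cancel hjf.le, e]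
    · intro u hu v hv e
      simp only [Prod.mk.injEq] at e
      obtain ⟨e1, e2, e3⟩ := e
      rcases le_total u v with h | h
      · have k1 := key u hu v hv h e1 e2
        have k2 : R ∣ v - u := (Nat.modEq_iff_dvd' h).1 e3
        have := Nat.eq_zero_of_dvd_of_lt k2 k1
        omega
      · have k1 := key v hv u hu h e1.symm e2.symm
        have k2 : R ∣ u - v := (Nat.modEq_iff_dvd' h).1 e3.symm
        have := Nat.eq_zero_of_dvd_of_lt k2 k1
        omega
  rw [card_product, card_product, card_range, card_range] at hcard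
  unfold cnt
  have := (Nat.cast_le (α := ℝ)).2 hcard
  push_cast at this
  exact this

theorem poly_le_exp (η : ℝ) (hη : 0 < η) :
    ∀ᶠ f : ℕ in Filter.atTop, 20 * ((f : ℝ) + 1) ^ 2 ≤ Real.exp (η * f) := by
  have h1 : ∀ᶠ f : ℕ in Filter.atTop, 480 / η ^ 3 ≤ (f : ℝ) :=
    tendsto_natCast_atTop_atTop.eventually_ge_atTop _
  filter_upwards [h1, Filter.eventually_ge_atTop 1] with f h hf
  have hf' : (1 : ℝ) ≤ f := by exact_mod_cast hf
  have h2 := Real.pow_div_factorial_le_exp (η * f) (by positivity) 3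
  have h3 : 480 ≤ η ^ 3 * f := by
    rw [div_le_iff₀ (by positivity)] at h; linarith
  have h4 : (η * f) ^ 3 / (Nat.factorial 3 : ℕ) = (η ^ 3 * f) * f ^ 2 / 6 := by
    simp [Nat.factorial]; ring
  rw [h4] at h2
  have h5 : 480 * (f : ℝ) ^ 2 ≤ (η ^ 3 * f) * f ^ 2 :=
    mul_le_mul_of_nonneg_right h3 (by positivity)
  nlinarith

end Pool.Agent.P.MP_bc8dca_nt
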