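import Pool.Agent.P.MP_bc8dca_nt.Win

namespace Pool.Agent.P.MP_bc8dca_nt

open Finset Filter Real

def Dio (ε C : ℝ) (L : ℕ) : Prop :=
  ∀ (X Y : ℤ) (e J : ℕ), ((3 : ℕ) : ℤ) ^ e ∣ X → ((2 : ℕ) : ℤ) ^ J ∣ Y → X ≠ Y →
    X ≠ 0 → |X - Y| ≤ |Y| → exp L ≤ |(Y : ℝ)| → |(Y : ℝ)| ≤ exp (C * L) →
    ((3 : ℕ) : ℝ) ^ e * ((2 : ℕ) : ℝ) ^ J ≤ |(X : ℝ) - Y| * |(Y : ℝ)| * exp (ε * L)

theorem fibre_gap (ε C E : ℝ) (hE : 0 < E) (g j e v v' x x' : ℕ) (hD : Dio ε C g)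
    (hv : v < 2 ^ g) (hv' : v' < 2 ^ g) (hne : v ≠ v')
    (h1 : |(2 : ℝ) ^ j * x - 3 ^ e * (v + 1)| ≤ E * 2 ^ j)
    (h2 : |(2 : ℝ) ^ j * x' - 3 ^ e * (v' + 1)| ≤ E * 2 ^ j)
    (hx : x ≡ x' [MOD 2 ^ g]) (hbig : 4 * (E * 2 ^ j) ≤ 3 ^ e) (hlo : 2 * exp g ≤ 3 ^ e)
    (hhi : 2 * (3 ^ e * 2 ^ g) ≤ exp (C * g)) :
    2 ^ g / (4 * E * exp (ε * g)) ≤ |(v : ℝ) - v'| := by
  set X : ℤ := 3 ^ e * ((v : ℤ) - v') with hX
  set Y : ℤ := 2 ^ j * ((x : ℤ) - x') with hY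
  have hw : (v : ℤ) - v' ≠ 0 := sub_ne_zero.2 (by exact_mod_cast hne)
  have hw1 : (1 : ℝ) ≤ |(v : ℝ) - v'| := by exact_mod_cast Int.one_le_abs hw
  have hw2 : |(v : ℤ) - v'| < 2 ^ g := by
    have a1 : (v : ℤ) < 2 ^ g := by exact_mod_cast hv
    have a2 : (v' : ℤ) < 2 ^ g := by exact_mod_cast hv'
    rw [abs_lt]; constructor <;> omega
  have hw3 : |(v : ℝ) - v'| ≤ 2 ^ g := by exact_mod_cast hw2.le
  have hYd : ((2 : ℕ) : ℤ) ^ (j + g) ∣ Y := by
    rw [pow_add]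
    apply mul_dvd_mul (by simp)
    have := hx.symm.dvd
    exact_mod_cast this
  have hXY : X ≠ Y := by
    intro h
    rw [← h] at hYd
    have a1 : ((2 : ℕ) : ℤ) ^ g ∣ 3 ^ e * ((v : ℤ) - v') :=
      (pow_dvd_pow _ (by omega)).trans hYd
    have a2 : IsCoprime (((2 : ℕ) : ℤ) ^ g) (3 ^ e) :=
      IsCoprime.pow (Nat.isCoprime_iff_coprime.2 (show Nat.Coprime 2 3 by norm_num))
    have a3 := Int.le_of_dvd (abs_pos.2 hw) ((dvd_abs _ _).2 (a2.dvd_of_dvd_mul_left a1))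
    push_cast at a3
    omega
  have hXr : |(X : ℝ)| = 3 ^ e * |(v : ℝ) - v'| := by
    rw [hX]; push_cast; rw [abs_mul, abs_of_pos (by positivity)]
  have hd : |(X : ℝ) - Y| ≤ 2 * (E * 2 ^ j) := by
    have e1 : (X : ℝ) - Y = ((2 : ℝ) ^ j * x' - 3 ^ e * (v' + 1)) -
        ((2 : ℝ) ^ j * x - 3 ^ e * (v + 1)) := by
      rw [hX, hY]; push_cast; ring
    rw [e1]
    exact (abs_sub _ _).trans (by linarith)
  have p3 : (0 : ℝ) < 3 ^ e := by positivity
  have hX1 : (3 : ℝ) ^ e ≤ |(X : ℝ)| := by rw [hXr]; nlinarith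
  have hX2 : |(X : ℝ)| ≤ 3 ^ e * 2 ^ g := by rw [hXr]; gcongr
  have t1 : |(X : ℝ)| ≤ |(X : ℝ) - Y| + |(Y : ℝ)| := by
    have := abs_add_le ((X : ℝ) - Y) Y
    rwa [sub_add_cancel] at this
  have t2 : |(Y : ℝ)| ≤ |(X : ℝ)| + |(X : ℝ) - Y| := by
    have := abs_sub (X : ℝ) (X - Y)
    rwa [sub_sub_cancel] at this
  have key := hD X Y e (j + g) (by simp [hX]) hYd hXY (mul_ne_zero (by positivity) hw)
    (by
      have : |(X : ℝ) - Y| ≤ |(Y : ℝ)| := by linarith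
      exact_mod_cast this)
    (by linarith) (by linarith)
  push_cast at key
  have t3 : |(Y : ℝ)| ≤ 2 * (3 ^ e * |(v : ℝ) - v'|) := by linarith
  have t4 : (3 : ℝ) ^ e * 2 ^ (j + g) ≤
      2 * (E * 2 ^ j) * (2 * (3 ^ e * |(v : ℝ) - v'|)) * exp (ε * g) :=
    key.trans (by gcongr)
  rw [div_le_iff₀ (by positivity)]
  apply le_of_mul_le_mul_left _ (show (0 : ℝ) < 3 ^ e * 2 ^ j by positivity)
  rw [pow_add] at t4
  linarith

open Classical in
theorem bad_count (δ z ε C : ℝ) (hδ0 : 0 < δ) (hδ : δ ≤ 1 / 10) (hz : 1 ≤ z) (k g i : ℕ)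
    (hD : Dio ε C g)
    (hbig : 4 * ((i + 1) * z ^ i * 2 ^ (i * g)) ≤ exp (log 3 * (k + (1 / 2 - δ) * (i * g))))
    (hlo : 2 * exp g ≤ 3 ^ k) (hhi : 2 * (3 ^ (k + i * g) * 2 ^ g) ≤ exp (C * g)) :
    (((range (2 ^ g)).filter (fun v => Good δ z k g v i ∧
      ¬ Ok δ (z ^ (i + 1)) g (xw k g v i))).card : ℝ) ≤
      (4 * ((i + 1) * z ^ i) * exp (ε * g) + 1) * ((i * g + 1) *
        (2 ^ g * ((g + 2) * exp (-(2 * δ ^ 2 * g)) + g / z ^ (i + 1)))) := by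
  set E : ℝ := (i + 1) * z ^ i with hE
  have hE0 : 0 < E := by positivity
  have h1 := card_le_mul_card_image_of_maps_to
    (s := (range (2 ^ g)).filter (fun v => Good δ z k g v i ∧ ¬ Ok δ (z ^ (i + 1)) g (xw k g v i)))
    (t := range (i * g + 1) ×ˢ (range (2 ^ g)).filter (fun x => ¬ Ok δ (z ^ (i + 1)) g x))
    (f := fun v => (Aw k g v i, xw k g v i % 2 ^ g))
    (by
      intro v hv
      rw [mem_filter] at hv
      obtain ⟨_, hg, hb⟩ := hv
      rw [mem_product, mem_filter, mem_range, mem_range]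
      refine ⟨Nat.lt_succ_of_le (state δ z hδ hz k g v i hg).2.1, Nat.mod_lt _ (by positivity), ?_⟩
      obtain ⟨a, b⟩ := mod_dep g _ _ (Nat.mod_modEq (xw k g v i) (2 ^ g))
      unfold Ok at hb ⊢
      simp only
      rwa [a, b])
    (⌊((2 ^ g : ℕ) : ℝ) / (2 ^ g / (4 * E * exp (ε * g)))⌋₊ + 1)
    (by
      intro b _
      apply card_spaced _ _ _ (by positivity)
        ((filter_subset _ _).trans (filter_subset _ _))
      intro v hv v' hv' hne
      simp only [mem_filter, mem_range] at hv hv'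
      obtain ⟨⟨a1, a2, _⟩, a3⟩ := hv
      obtain ⟨⟨b1, b2, _⟩, b3⟩ := hv'
      have c := a3.trans b3.symm
      rw [Prod.mk.injEq] at c
      obtain ⟨s1, s2, s3⟩ := state δ z hδ hz k g v i a2
      obtain ⟨_, _, t3⟩ := state δ z hδ hz k g v' i b2
      rw [← c.1] at t3
      refine fibre_gap ε C E hE0 g (i * g) (k + Aw k g v i) v v' _ _ hD a1 b1 hne s3 t3 c.2
        (hbig.trans ?_) (hlo.trans ?_) (le_trans ?_ hhi)
      · rw [three_pow_eq, exp_le_exp]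
        have := l3_lb
        push_cast
        gcongr
      · exact pow_le_pow_right₀ (by norm_num) (by omega)
      · gcongr
        norm_num)
  have h2 := (Nat.cast_le (α := ℝ)).2 h1
  rw [card_product, card_range] at h2
  push_cast at h2
  refine h2.trans ?_
  have h3 := bad_card δ (z ^ (i + 1)) hδ0 (by positivity) g
  have h4 : (⌊(2 : ℝ) ^ g / (2 ^ g / (4 * E * exp (ε * g)))⌋₊ : ℝ) ≤ 4 * E * exp (ε * g) := by
    refine (Nat.floor_le (by positivity)).trans (le_of_eq ?_)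
    field_simp
  gcongr

theorem poly4_le_exp (η c : ℝ) (hη : 0 < η) :
    ∀ᶠ f : ℕ in atTop, c * ((f : ℝ) + 1) ^ 2 < exp (η * f) := by
  filter_upwards [poly_le_exp (η / 2) (by positivity),
    tendsto_natCast_atTop_atTop.eventually_ge_atTop c] with f h hc
  have e : exp (η * f) = exp (η / 2 * f) * exp (η / 2 * f) := by rw [← exp_add]; congr 1; ring
  have f0 : (0 : ℝ) ≤ f := by positivity
  have a1 : c < 20 * ((f : ℝ) + 1) ^ 2 := by nlinarith
  have a2 : 0 < ((f : ℝ) + 1) ^ 2 := by positivity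
  have a3 : ((f : ℝ) + 1) ^ 2 ≤ exp (η / 2 * f) := by linarith
  rw [e]
  calc c * ((f : ℝ) + 1) ^ 2 < exp (η / 2 * f) * ((f : ℝ) + 1) ^ 2 :=
        mul_lt_mul_of_pos_right (a1.trans_le h) a2
    _ ≤ _ := by gcongr

theorem ar_big (δ ε K W i g : ℝ) (hδ0 : 0 < δ) (hε0 : 0 < ε) (hε1 : ε * (W + 1) = δ ^ 2)
    (hKW : 3 * δ ^ 2 + W * log 2 ≤ log 3 * (K + (1 / 2 - δ) * W)) (i1 : i ≤ W)
    (g0 : 0 ≤ g) :
    δ ^ 2 * g + (2 * ε * i * g + log 2 * (i * g)) ≤ log 3 * (K * g + (1 / 2 - δ) * (i * g)) := by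
  have l2 := l2_lb
  have l3 := l3_lb
  have l3' := l3_ub
  have a2 : 3 * δ ^ 2 + i * log 2 ≤ log 3 * (K + (1 / 2 - δ) * i) := by
    have : 0 ≤ (W - i) * (log 2 - log 3 * (1 / 2 - δ)) :=
      mul_nonneg (by linarith) (by nlinarith)
    nlinarith
  have a3 : 2 * ε * i ≤ 2 * δ ^ 2 := by nlinarith
  have a4 := mul_le_mul_of_nonneg_right a2 g0
  have a5 := mul_le_mul_of_nonneg_right a3 g0
  linarith

theorem ar_lo (K g : ℕ) (hK : 2 ≤ K) (hg : 1 ≤ g) : 2 * exp g ≤ 3 ^ (K * g) := by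
  have K2 : (2 : ℝ) ≤ K := by exact_mod_cast hK
  have g1 : (1 : ℝ) ≤ g := by exact_mod_cast hg
  have l2' := l2_ub
  have l3 := l3_lb
  have : (2 : ℝ) = exp (log 2) := (exp_log (by norm_num)).symm
  rw [this, three_pow_eq, ← exp_add, exp_le_exp]
  push_cast
  have : 2 * (g : ℝ) ≤ K * g := by nlinarith
  nlinarith

theorem ar_hi (K W g i : ℕ) (hi : i ≤ W) (hg : 1 ≤ g) :
    2 * ((3 : ℝ) ^ (K * g + i * g) * 2 ^ g) ≤ exp (2 * (K + W + 1) * g) := by
  have g1 : (1 : ℝ) ≤ g := by exact_mod_cast hg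
  have l2' := l2_ub
  have l3 := l3_ub
  have i1 : (i : ℝ) ≤ W := by exact_mod_cast hi
  have i0 : (0 : ℝ) ≤ i := by positivity
  rw [mul_left_comm, ← pow_succ', two_pow_eq, three_pow_eq, ← exp_add, exp_le_exp]
  push_cast
  have b1 : (i : ℝ) * g ≤ W * g := by nlinarith
  have b2 : 0 ≤ (K : ℝ) * g + i * g := by positivity
  nlinarith

theorem ar_cnt (δ ε W g : ℝ) (i : ℕ) (hε0 : 0 < ε) (hε1 : ε * (W + 1) = δ ^ 2)
    (i1 : (i : ℝ) + 1 ≤ W) (g1 : 1 ≤ g) (B : ℝ) (hB : 0 ≤ B) :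
    (4 * ((i + 1) * exp (2 * ε * g) ^ i) * exp (ε * g) + 1) * ((i * g + 1) *
      (B * ((g + 2) * exp (-(2 * δ ^ 2 * g)) + g / exp (2 * ε * g) ^ (i + 1)))) ≤
      B * (20 * (W + 1) ^ 2 * (g + 1) ^ 2 * exp (-(ε * g))) := by
  have i0 : (0 : ℝ) ≤ i := by positivity
  have g0 : 0 ≤ g := by linarith
  have W0 : 0 ≤ W := by linarith
  set z := exp (2 * ε * g) with hz
  have hz1 : 1 ≤ z := one_le_exp (by positivity)
  have hzi : ∀ i : ℕ, z ^ i = exp (2 * ε * i * g) := by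
    intro i; rw [hz, ← exp_nat_mul]; congr 1; ring
  have a0 : 1 ≤ z ^ i * exp (ε * g) :=
    one_le_mul_of_one_le_of_one_le (one_le_pow₀ hz1) (one_le_exp (by positivity))
  have a1 : 4 * ((i + 1) * z ^ i) * exp (ε * g) + 1 ≤ 5 * (W + 1) * (z ^ i * exp (ε * g)) := by
    nlinarith
  have a2 : (i : ℝ) * g + 1 ≤ (W + 1) * (g + 1) := by nlinarith
  have a3 : z ^ i * exp (ε * g) * exp (-(2 * δ ^ 2 * g)) ≤ exp (-(ε * g)) := by
    rw [hzi, ← exp_add, ← exp_add, exp_le_exp]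
    have b1 : ε * (i + 1) ≤ δ ^ 2 := by nlinarith
    have := mul_le_mul_of_nonneg_right b1 g0
    linarith
  have a4 : z ^ i * exp (ε * g) / z ^ (i + 1) = exp (-(ε * g)) := by
    rw [hzi, hzi, ← exp_add, ← exp_sub]
    congr 1
    push_cast
    ring
  have a5 : z ^ i * exp (ε * g) * ((g + 2) * exp (-(2 * δ ^ 2 * g)) + g / z ^ (i + 1)) ≤
      4 * (g + 1) * exp (-(ε * g)) := by
    have : z ^ i * exp (ε * g) * ((g + 2) * exp (-(2 * δ ^ 2 * g)) + g / z ^ (i + 1)) =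
        (g + 2) * (z ^ i * exp (ε * g) * exp (-(2 * δ ^ 2 * g))) +
        g * (z ^ i * exp (ε * g) / z ^ (i + 1)) := by ring
    rw [this, a4]
    have b1 := exp_pos (-(ε * g))
    have b2 := mul_le_mul_of_nonneg_left a3 (show 0 ≤ g + 2 by linarith)
    nlinarith
  calc (4 * ((i + 1) * z ^ i) * exp (ε * g) + 1) * ((i * g + 1) *
        (B * ((g + 2) * exp (-(2 * δ ^ 2 * g)) + g / z ^ (i + 1))))
      ≤ (5 * (W + 1) * (z ^ i * exp (ε * g))) * (((W + 1) * (g + 1)) *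
        (B * ((g + 2) * exp (-(2 * δ ^ 2 * g)) + g / z ^ (i + 1)))) := by gcongr
    _ = B * (5 * (W + 1) ^ 2 * (g + 1) * (z ^ i * exp (ε * g) *
        ((g + 2) * exp (-(2 * δ ^ 2 * g)) + g / z ^ (i + 1)))) := by ring
    _ ≤ B * (5 * (W + 1) ^ 2 * (g + 1) * (4 * (g + 1) * exp (-(ε * g)))) := by gcongr
    _ = _ := by ring

theorem exists_good (δ : ℝ) (hδ0 : 0 < δ) (hδ : δ ≤ 1 / 10) (K W : ℕ) (hK : 2 ≤ K)
    (hKW : 3 * δ ^ 2 + W * log 2 ≤ log 3 * (K + (1 / 2 - δ) * W)) :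
    ∃ᶠ g : ℕ in atTop, ∃ v < 2 ^ g, 3 ≤ xw (K * g) g v W := by
  classical
  obtain ⟨ε, hε0, hε1⟩ : ∃ ε : ℝ, 0 < ε ∧ ε * (W + 1) = δ ^ 2 :=
    ⟨δ ^ 2 / (W + 1), by positivity, by field_simp⟩
  have W0 : (0 : ℝ) ≤ W := by positivity
  have K2 : (2 : ℝ) ≤ K := by exact_mod_cast hK
  have hR : ∃ᶠ g : ℕ in atTop, Dio ε (2 * (K + W + 1)) g :=
    Pool.Agent.Lib.Ridout.schneider_ridout 3 2 (by norm_num) (by norm_num) (by norm_num)
      ε (2 * (K + W + 1)) hε0 (by linarith)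
  refine (hR.and_eventually ((poly4_le_exp ε (20 * (W + 1) ^ 3) hε0).and
    ((poly4_le_exp (δ ^ 2) (4 * (W + 1)) (by positivity)).and (eventually_ge_atTop 1)))).mono ?_
  rintro g ⟨hD, hp1, hp2, hg⟩
  have g1 : (1 : ℝ) ≤ g := by exact_mod_cast hg
  have hcnt := fun (i : ℕ) h => ar_cnt δ ε W g i hε0 hε1 h g1 (2 ^ g) (by positivity)
  have hzi : ∀ i : ℕ, exp (2 * ε * g) ^ i = exp (2 * ε * i * g) := by
    intro i; rw [← exp_nat_mul]; congr 1; ring
  have hz1 : 1 ≤ exp (2 * ε * g) := one_le_exp (by positivity)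
  generalize exp (2 * ε * g) = z at hcnt hzi hz1
  have hbig : ∀ i ≤ W, 4 * ((i + 1) * z ^ i * 2 ^ (i * g)) ≤
      exp (log 3 * ((K * g : ℕ) + (1 / 2 - δ) * (i * g))) := by
    intro i hi
    have i1 : (i : ℝ) ≤ W := by exact_mod_cast hi
    have a1 : 4 * ((i : ℝ) + 1) ≤ exp (δ ^ 2 * g) := by
      refine le_trans ?_ hp2.le
      calc 4 * ((i : ℝ) + 1) ≤ 4 * (W + 1) * 1 := by linarith
        _ ≤ _ := by
          apply mul_le_mul_of_nonneg_left _ (by positivity)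
          exact one_le_pow₀ (by linarith)
    calc 4 * ((i + 1) * z ^ i * 2 ^ (i * g)) = 4 * (i + 1) * (z ^ i * 2 ^ (i * g)) := by ring
      _ ≤ exp (δ ^ 2 * g) * (z ^ i * 2 ^ (i * g)) := by gcongr
      _ ≤ _ := by
        rw [hzi, two_pow_eq, ← exp_add, ← exp_add, exp_le_exp]
        push_cast
        exact ar_big δ ε K W i g hδ0 hε0 hε1 hKW i1 (by linarith)
  obtain ⟨v, hv, hg⟩ : ∃ v < 2 ^ g, Good δ z (K * g) g v W := by
    by_contra hcon
    push Not at hcon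
    have hsub : range (2 ^ g) ⊆ (range W).biUnion fun i => (range (2 ^ g)).filter
        (fun v => Good δ z (K * g) g v i ∧ ¬ Ok δ (z ^ (i + 1)) g (xw (K * g) g v i)) := by
      intro v hv
      have h1 := hcon v (mem_range.1 hv)
      unfold Good at h1
      push Not at h1
      have h2 := Nat.find_spec h1
      rw [mem_biUnion]
      refine ⟨Nat.find h1, mem_range.2 h2.1, mem_filter.2 ⟨hv, fun s hs => ?_, h2.2⟩⟩
      have := Nat.find_min h1 hs
      push Not at this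
      exact this (hs.trans h2.1)
    have h3 := (Nat.cast_le (α := ℝ)).2 ((card_le_card hsub).trans card_biUnion_le)
    rw [card_range] at h3
    push_cast at h3
    have h4 : ∀ i ∈ range W, (((range (2 ^ g)).filter
        (fun v => Good δ z (K * g) g v i ∧ ¬ Ok δ (z ^ (i + 1)) g (xw (K * g) g v i))).card : ℝ) ≤
        2 ^ g * (20 * (W + 1) ^ 2 * (g + 1) ^ 2 * exp (-(ε * g))) := by
      intro i hi
      have hi' : i ≤ W := (mem_range.1 hi).le
      exact (bad_count δ z ε _ hδ0 hδ hz1 (K * g) g i hD (hbig i hi') (ar_lo K g hK hg)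
        (ar_hi K W g i hi' hg)).trans (hcnt i (by exact_mod_cast mem_range.1 hi))
    have h5 := h3.trans (sum_le_sum h4)
    rw [sum_const, card_range, nsmul_eq_mul] at h5
    have h6 : 20 * ((W : ℝ) + 1) ^ 3 * (g + 1) ^ 2 * exp (-(ε * g)) < 1 := by
      rw [exp_neg, mul_inv_lt_iff₀ (exp_pos _), one_mul]
      exact hp1
    have h7 : (0 : ℝ) < 2 ^ g := by positivity
    have h8 : 0 ≤ 20 * ((W : ℝ) + 1) ^ 2 * (g + 1) ^ 2 * exp (-(ε * g)) := by positivity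
    have h9 : (W : ℝ) * (20 * ((W : ℝ) + 1) ^ 2 * (g + 1) ^ 2 * exp (-(ε * g))) < 1 := by
      linarith
    have h10 := mul_lt_mul_of_pos_left h9 h7
    linarith
  refine ⟨v, hv, ?_⟩
  obtain ⟨s1, _, s3⟩ := state δ z hδ hz1 (K * g) g v W hg
  have a1 : 4 * ((W + 1) * z ^ W * 2 ^ (W * g)) ≤ 3 ^ (K * g + Aw (K * g) g v W) := by
    refine (hbig W le_rfl).trans ?_
    rw [three_pow_eq, exp_le_exp]
    have := l3_lb
    push_cast
    gcongr
  have a2 := (abs_le.1 s3).1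
  have a3 : (3 : ℝ) ^ (K * g + Aw (K * g) g v W) ≤ 3 ^ (K * g + Aw (K * g) g v W) * (v + 1) :=
    le_mul_of_one_le_right (by positivity) (by have : (0 : ℝ) ≤ v := by positivity
                                               linarith)
  have a4 : (1 : ℝ) ≤ (W + 1) * z ^ W :=
    one_le_mul_of_one_le_of_one_le (by linarith) (one_le_pow₀ hz1)
  have a5 : (0 : ℝ) < 2 ^ (W * g) := by positivity
  have a7 := mul_le_mul_of_nonneg_right a4 a5.le
  have a6 : (2 : ℝ) ^ (W * g) * 3 ≤ 2 ^ (W * g) * xw (K * g) g v W := by linarith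
  exact_mod_cast le_of_mul_le_mul_left a6 a5

theorem iter_one (j : ℕ) : T^[j] 1 = 1 ∨ T^[j] 1 = 2 := by
  induction j with
  | zero => simp
  | succ j ih =>
    rw [Function.iterate_succ_apply']
    rcases ih with h | h <;> rw [h] <;> simp [T]

theorem gamma_ge (K W : ℕ) (hK : 2 ≤ K) (hKW : W * (log 2 - log 3 / 2) < K * log 3) :
    ENNReal.ofReal ((K + W) / ((K + 1) * log 2)) ≤ gamma3 := by
  have l2 := l2_lb
  obtain ⟨δ, hδ0, hδ, hd⟩ : ∃ δ : ℝ, 0 < δ ∧ δ ≤ 1 / 10 ∧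
      3 * δ ^ 2 + W * log 2 ≤ log 3 * (K + (1 / 2 - δ) * W) := by
    have l3 := l3_lb
    set μ := K * log 3 - W * (log 2 - log 3 / 2) with hμ
    have hμ0 : 0 < μ := by linarith
    have hp : 0 < 1 + log 3 * W := by positivity
    refine ⟨min (1 / 10) (μ / (1 + log 3 * W)), by positivity, min_le_left _ _, ?_⟩
    have a1 := min_le_left (1 / 10) (μ / (1 + log 3 * W))
    have a2 := min_le_right (1 / 10) (μ / (1 + log 3 * W))
    have a3 : 0 < min (1 / 10) (μ / (1 + log 3 * W)) := by positivity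
    rw [le_div_iff₀ hp] at a2
    nlinarith
  unfold gamma3
  apply le_limsup_of_frequently_le'
  rw [frequently_atTop]
  intro N
  obtain ⟨g, hg, v, hv, hx⟩ := frequently_atTop.1 (exists_good δ hδ0 hδ K W hK hd) (N + 2)
  have h2k : K * g < 2 ^ (K * g) := Nat.lt_two_pow_self
  have hn : N + 2 ≤ 2 ^ (K * g) * (v + 1) - 1 := by
    have : 2 ^ (K * g) ≤ 2 ^ (K * g) * (v + 1) := Nat.le_mul_of_pos_right _ (by omega)
    have : g ≤ K * g := Nat.le_mul_of_pos_left _ (by omega)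
    omega
  refine ⟨2 ^ (K * g) * (v + 1) - 1, by omega, ?_⟩
  set n := 2 ^ (K * g) * (v + 1) - 1 with hndef
  have hs : ENNReal.ofReal ((K + W) * g) ≤ sigma n := by
    apply sigma_ge
    intro j hj
    by_contra hh
    have hj2 : j ≤ W * g + K * g := by
      have : (j : ℝ) ≤ (W * g + K * g : ℕ) := by push_cast; linarith
      exact_mod_cast this
    have e1 : T^[W * g + K * g] n = xw (K * g) g v W := by
      rw [Function.iterate_add_apply, hndef, iter_ones _ _ (by omega)]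
      rfl
    rw [← Nat.sub_add_cancel hj2, Function.iterate_add_apply, hj] at e1
    rcases iter_one (W * g + K * g - j) with h | h <;> omega
  have hn2 : (2 : ℝ) ≤ n := by exact_mod_cast (show 2 ≤ n by omega)
  have hlog0 : 0 < log n := Real.log_pos (by linarith)
  have hlog : log n ≤ (K + 1) * log 2 * g := by
    have a1 : n ≤ 2 ^ (K * g + g) := by
      have : 2 ^ (K * g) * (v + 1) ≤ 2 ^ (K * g) * 2 ^ g := Nat.mul_le_mul_left _ hv
      rw [pow_add]; omega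
    have a2 : (n : ℝ) ≤ 2 ^ (K * g + g) := by exact_mod_cast a1
    have := Real.log_le_log (by linarith) a2
    rw [Real.log_pow] at this
    push_cast at this
    linarith
  refine le_trans ?_ (ENNReal.div_le_div_right hs _)
  rw [← ENNReal.ofReal_div_of_pos hlog0]
  apply ENNReal.ofReal_le_ofReal
  rw [le_div_iff₀ hlog0]
  calc (K + W) / ((K + 1) * log 2) * log n
      ≤ (K + W) / ((K + 1) * log 2) * ((K + 1) * log 2 * g) := by gcongr
    _ = _ := by field_simp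

theorem main_ridout :
    ENNReal.ofReal ((1 + 2 * log 3 / log (4 / 3)) / log 2) ≤ gamma3 := by
  have l2 := l2_lb
  have l3 := l3_ub
  have l3' := l3_lb
  have e43 : log (4 / 3) = 2 * log 2 - log 3 := by
    rw [Real.log_div (by norm_num) (by norm_num), show (4 : ℝ) = 2 ^ 2 by norm_num, Real.log_pow]
    push_cast; ring
  set ρ := 2 * log 3 / log (4 / 3) with hρ
  have hρ1 : ρ * (log 2 - log 3 / 2) = log 3 := by
    have : 2 * log 2 - log 3 ≠ 0 := by linarith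
    rw [hρ, e43]; field_simp
  have hρ0 : 0 < ρ := by rw [hρ, e43]; apply div_pos <;> linarith
  have h : ∀ᶠ K : ℕ in atTop,
      ENNReal.ofReal (((1 + ρ) - (ρ + 2) * (1 / ((K : ℝ) + 1))) / log 2) ≤ gamma3 := by
    filter_upwards [eventually_ge_atTop 2] with K hK
    have K2 : (2 : ℝ) ≤ K := by exact_mod_cast hK
    have c0 : 1 ≤ ⌈ρ * K⌉₊ := Nat.succ_le_of_lt (Nat.ceil_pos.2 (by positivity))
    have c1 := Nat.le_ceil (ρ * K)
    have c2 := Nat.ceil_lt_add_one (show 0 ≤ ρ * K by positivity)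
    refine le_trans (ENNReal.ofReal_le_ofReal ?_) (gamma_ge K (⌈ρ * K⌉₊ - 1) hK ?_)
    · rw [Nat.cast_sub c0, ← div_div]
      apply div_le_div_of_nonneg_right _ (by linarith)
      rw [le_div_iff₀ (by linarith)]
      have : ((1 + ρ) - (ρ + 2) * (1 / ((K : ℝ) + 1))) * (K + 1) = K + ρ * K - 1 := by
        field_simp; ring
      rw [this]
      push_cast
      linarith
    · rw [Nat.cast_sub c0]
      have : ((⌈ρ * K⌉₊ : ℝ) - (1 : ℕ)) * (log 2 - log 3 / 2) < ρ * K * (log 2 - log 3 / 2) :=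
        mul_lt_mul_of_pos_right (by push_cast; linarith) (by linarith)
      nlinarith
  have t1 : Tendsto (fun K : ℕ => ((1 + ρ) - (ρ + 2) * (1 / ((K : ℝ) + 1))) / log 2) atTop
      (nhds (((1 + ρ) - (ρ + 2) * 0) / log 2)) :=
    ((tendsto_one_div_add_atTop_nhds_zero_nat.const_mul _).const_sub _).div_const _
  rw [mul_zero, sub_zero] at t1
  exact le_of_tendsto (ENNReal.tendsto_ofReal t1) h

end Pool.Agent.P.MP_bc8dca_nt
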