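import Pool.Agent.P.MP_bc8dca_nt.Core

namespace Pool.Agent.P.MP_bc8dca_nt

open Finset Filter Real

theorem slow_zero : Slow 0 := by
  classical
  refine ⟨log 2, by have := l2_lb; linarith, Eventually.of_forall fun f => ?_⟩
  rw [two_pow_eq, ← exp_add, add_neg_cancel, exp_zero]
  unfold cnt
  rw [Nat.cast_le_one]
  apply (card_le_card (t := {1}) _).trans (by simp)
  intro u hu
  rw [mem_filter] at hu
  obtain ⟨j, hj, e⟩ := hu.2
  have : j = 0 := by
    have : (j : ℝ) ≤ 0 := by simpa using hj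
    exact_mod_cast le_antisymm this (by positivity)
  subst this
  simpa using e

theorem slow_step (c : ℝ) (h : Slow c) (hc : 0 ≤ c) :
    Slow (1 + c * (log 3 / 2 / log 2)) := by
  have l2 := l2_lb
  have l3 := l3_ub
  obtain ⟨δ, hδ, h⟩ := core c 0 h hc le_rfl (by linarith) (fun _ => 1) (fun _ => 0)
    (fun _ => rfl) (fun f => by simp; norm_num) (fun f => by simp) (fun _ => Nat.zero_le _)
  refine ⟨δ, hδ, ?_⟩
  filter_upwards [h] with f h
  have e : (fun u => Reach u ((1 + c * (log 3 / 2 / log 2)) * f)) =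
      (fun u => Reach (1 * u + 0) (f + c * ((0 + log 3 / 2) / log 2) * f)) := by
    funext u
    rw [one_mul, add_zero, zero_add, add_mul, one_mul]
  rw [e]
  exact h

theorem slow_seq (i : ℕ) :
    Slow ((1 - (log 3 / 2 / log 2) ^ i) / (1 - log 3 / 2 / log 2)) := by
  have l2 := l2_lb
  have l3 := l3_ub
  have l3' := l3_lb
  have hr : log 3 / 2 / log 2 < 1 := by rw [div_lt_one (by linarith)]; linarith
  have hr0 : 0 ≤ log 3 / 2 / log 2 := by positivity
  set r := log 3 / 2 / log 2 with hrdef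
  induction i with
  | zero => simpa using slow_zero
  | succ i ih =>
    have h := slow_step _ ih
      (div_nonneg (sub_nonneg.2 (pow_le_one₀ hr0 hr.le)) (by linarith))
    rw [← hrdef] at h
    have e : (1 - r ^ (i + 1)) / (1 - r) = 1 + (1 - r ^ i) / (1 - r) * r := by
      have : 1 - r ≠ 0 := by linarith
      field_simp
      ring
    rw [e]
    exact h

theorem iter_ones (j v : ℕ) (hv : 0 < v) : T^[j] (2 ^ j * v - 1) = 3 ^ j * v - 1 := by
  induction j generalizing v with
  | zero => simp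
  | succ j ih =>
    rw [Function.iterate_succ_apply]
    have h1 : 0 < 2 ^ j * v := by positivity
    have e1 : 2 ^ (j + 1) * v - 1 = 2 * (2 ^ j * v - 1) + 1 := by
      rw [pow_succ, show 2 ^ j * 2 * v = 2 * (2 ^ j * v) by ring]; omega
    have e2 : 3 * (2 ^ j * v - 1) + 2 = 2 ^ j * (3 * v) - 1 := by
      rw [show 2 ^ j * (3 * v) = 3 * (2 ^ j * v) by ring]; omega
    rw [e1, T_odd, e2, ih _ (by omega), pow_succ, mul_assoc]

theorem sigma_ge (n : ℕ) (x : ℝ) (h : ∀ j : ℕ, T^[j] n = 1 → x ≤ j) :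
    ENNReal.ofReal x ≤ sigma n := by
  unfold sigma
  refine le_iInf fun j => le_iInf fun hj => ?_
  rw [← ENNReal.ofReal_natCast]
  exact ENNReal.ofReal_le_ofReal (h j hj)

theorem gamma_ge_of_slow (c : ℝ) (h : Slow c) (hc : 0 ≤ c) :
    ENNReal.ofReal ((1 + c / (1 + (log 2 - log 3 / 2) / log 3)) / log 2) ≤ gamma3 := by
  classical
  have l2 := l2_lb
  have l3 := l3_ub
  have l3' := l3_lb
  set κ := (log 2 - log 3 / 2) / log 3 with hκ
  have hκ0 : 0 < κ := div_pos (by linarith) (by linarith)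
  have hκ1 : log 3 * κ = log 2 - log 3 / 2 := by rw [hκ]; field_simp
  obtain ⟨δ, hδ, h⟩ := core c (log 2 - log 3 / 2) h hc (by linarith) (by linarith)
    (fun f => 3 ^ ⌊κ * f⌋₊) (fun f => 3 ^ ⌊κ * f⌋₊ - 1)
    (fun f => Nat.odd_iff.1 (Odd.pow (by decide)))
    (fun f => by
      push_cast
      rw [div_le_iff₀ (by norm_num), ← pow_succ, three_pow_eq]
      apply exp_le_exp.2
      have := Nat.lt_floor_add_one (κ * f)
      push_cast
      rw [← hκ1, mul_assoc]
      exact mul_le_mul_of_nonneg_left this.le (by linarith))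
    (fun f => by
      push_cast
      rw [three_pow_eq]
      apply exp_le_exp.2
      have := Nat.floor_le (show 0 ≤ κ * f by positivity)
      rw [← hκ1, mul_assoc]
      exact mul_le_mul_of_nonneg_left this (by linarith))
    (fun f => Nat.sub_le _ _)
  unfold gamma3
  apply le_limsup_of_frequently_le'
  rw [frequently_atTop]
  intro N
  have ht : Tendsto (fun f : ℕ => ⌊κ * f⌋₊) atTop atTop :=
    tendsto_nat_floor_atTop.comp (tendsto_natCast_atTop_atTop.const_mul_atTop hκ0)
  obtain ⟨f, hf, hf1, hk⟩ := (h.and ((eventually_ge_atTop 1).and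
    (ht.eventually_ge_atTop (N + 2)))).exists
  set k := ⌊κ * f⌋₊ with hkdef
  have e1 : (log 2 - log 3 / 2 + log 3 / 2) / log 2 = 1 := by
    rw [sub_add_cancel]; exact div_self (by linarith)
  rw [e1, mul_one] at hf
  have hf1' : (1 : ℝ) ≤ f := by exact_mod_cast hf1
  obtain ⟨u, hu, hnr⟩ : ∃ u, u < 2 ^ f ∧ ¬ Reach (3 ^ k * u + (3 ^ k - 1)) (f + c * f) := by
    by_contra hh
    push Not at hh
    unfold cnt at hf
    rw [filter_true_of_mem (fun u hu => hh u (mem_range.1 hu)), card_range] at hf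
    push_cast at hf
    have : exp (-(δ * f)) < 1 := by
      rw [exp_lt_one_iff]
      have : 0 < δ * f := by positivity
      linarith
    have p : (0 : ℝ) < 2 ^ f := by positivity
    nlinarith
  have h2k : k < 2 ^ k := Nat.lt_two_pow_self
  have hn : N + 2 ≤ 2 ^ k * (u + 1) - 1 := by
    have : 2 ^ k ≤ 2 ^ k * (u + 1) := Nat.le_mul_of_pos_right _ (by omega)
    omega
  refine ⟨2 ^ k * (u + 1) - 1, by omega, ?_⟩
  set n := 2 ^ k * (u + 1) - 1 with hndef
  have hs : ENNReal.ofReal (k + (f + c * f)) ≤ sigma n := by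
    apply sigma_ge
    intro j hj
    by_cases hjk : j ≤ k
    · exfalso
      have e2 : n = 2 ^ j * (2 ^ (k - j) * (u + 1)) - 1 := by
        rw [hndef, ← mul_assoc, ← pow_add, Nat.add_sub_cancel' hjk]
      rw [e2, iter_ones _ _ (by positivity)] at hj
      have a1 : 2 ^ j ≤ 3 ^ j := Nat.pow_le_pow_left (by norm_num) _
      have a2 := Nat.mul_le_mul_right (2 ^ (k - j) * (u + 1)) a1
      omega
    · have e2 : T^[j - k] (3 ^ k * u + (3 ^ k - 1)) = 1 := by
        have a1 : 0 < 3 ^ k := by positivity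
        rw [show 3 ^ k * u + (3 ^ k - 1) = 3 ^ k * (u + 1) - 1 by rw [mul_add]; omega,
          ← iter_ones k _ (by omega), ← Function.iterate_add_apply,
          Nat.sub_add_cancel (by omega)]
        exact hj
      by_contra hh
      apply hnr
      refine ⟨j - k, ?_, e2⟩
      rw [Nat.cast_sub (by omega)]
      linarith
  have hn2 : (2 : ℝ) ≤ n := by exact_mod_cast (show 2 ≤ n by omega)
  have hlog0 : 0 < log n := Real.log_pos (by linarith)
  have hlog : log n ≤ log 2 * (k + f) := by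
    have a1 : n ≤ 2 ^ (k + f) := by
      have : 2 ^ k * (u + 1) ≤ 2 ^ k * 2 ^ f := Nat.mul_le_mul_left _ hu
      rw [pow_add]; omega
    have a2 : (n : ℝ) ≤ 2 ^ (k + f) := by exact_mod_cast a1
    have := Real.log_le_log (by linarith) a2
    rw [Real.log_pow] at this
    push_cast at this
    linarith
  refine le_trans ?_ (ENNReal.div_le_div_right hs _)
  rw [← ENNReal.ofReal_div_of_pos hlog0]
  apply ENNReal.ofReal_le_ofReal
  have hk1 : (k : ℝ) ≤ κ * f := Nat.floor_le (by positivity)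
  have hk0 : (0 : ℝ) ≤ k := by positivity
  have a3 : (1 + c / (1 + κ)) * (k + f) ≤ k + (f + c * f) := by
    have : c / (1 + κ) * (k + f) ≤ c * f := by
      rw [div_mul_eq_mul_div, div_le_iff₀ (by linarith), mul_assoc]
      apply mul_le_mul_of_nonneg_left _ hc
      linarith
    linarith
  have a4 : 0 ≤ (1 + c / (1 + κ)) / log 2 := by positivity
  rw [le_div_iff₀ hlog0]
  calc (1 + c / (1 + κ)) / log 2 * log n ≤ (1 + c / (1 + κ)) / log 2 * (log 2 * (k + f)) :=
        mul_le_mul_of_nonneg_left hlog a4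
    _ = (1 + c / (1 + κ)) * (k + f) := by
        have : log 2 ≠ 0 := by linarith
        field_simp
    _ ≤ _ := a3

theorem main :
    ENNReal.ofReal (1 / log 2 + 4 * log 3 / (log (4 / 3) * log 12)) ≤ gamma3 := by
  have l2 := l2_lb
  have l3 := l3_ub
  have l3' := l3_lb
  have hr : log 3 / 2 / log 2 < 1 := by rw [div_lt_one (by linarith)]; linarith
  have hr0 : 0 ≤ log 3 / 2 / log 2 := by positivity
  set r := log 3 / 2 / log 2 with hrdef
  set κ := (log 2 - log 3 / 2) / log 3 with hκ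
  have h : ∀ i : ℕ, ENNReal.ofReal ((1 + ((1 - r ^ i) / (1 - r)) / (1 + κ)) / log 2) ≤ gamma3 :=
    fun i => gamma_ge_of_slow _ (slow_seq i)
      (div_nonneg (sub_nonneg.2 (pow_le_one₀ hr0 hr.le)) (by linarith))
  have t0 := tendsto_pow_atTop_nhds_zero_of_lt_one hr0 hr
  have t1 : Tendsto (fun i : ℕ => (1 + ((1 - r ^ i) / (1 - r)) / (1 + κ)) / log 2) atTop
      (nhds ((1 + ((1 - 0) / (1 - r)) / (1 + κ)) / log 2)) :=
    ((((t0.const_sub 1).div_const _).div_const _).const_add 1).div_const _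
  have t2 := le_of_tendsto' (ENNReal.tendsto_ofReal t1) h
  have e43 : log (4 / 3) = 2 * log 2 - log 3 := by
    rw [Real.log_div (by norm_num) (by norm_num), show (4 : ℝ) = 2 ^ 2 by norm_num, Real.log_pow]
    push_cast; ring
  have e12 : log 12 = 2 * log 2 + log 3 := by
    rw [show (12 : ℝ) = 2 ^ 2 * 3 by norm_num, Real.log_mul (by norm_num) (by norm_num),
      Real.log_pow]
    push_cast; ring
  have e : 1 / log 2 + 4 * log 3 / (log (4 / 3) * log 12) =
      (1 + ((1 - 0) / (1 - r)) / (1 + κ)) / log 2 := by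
    rw [e43, e12, hrdef, hκ]
    have n1 : log 2 ≠ 0 := by linarith
    have n2 : log 3 ≠ 0 := by linarith
    have n3 : 2 * log 2 - log 3 ≠ 0 := by linarith
    have n4 : 2 * log 2 + log 3 ≠ 0 := by linarith
    have e1 : 1 - log 3 / 2 / log 2 = (2 * log 2 - log 3) / (2 * log 2) := by field_simp
    have e2 : 1 + (log 2 - log 3 / 2) / log 3 = (2 * log 2 + log 3) / (2 * log 3) := by
      field_simp; ring
    rw [e1, e2]
    field_simp
    ring
  rw [e]
  exact t2

end Pool.Agent.P.MP_bc8dca_nt
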