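import Pool.Agent.P.MP_bc8dca_nt.Main
import Pool.Agent.Lib.Ridout.Main

namespace Pool.Agent.P.MP_bc8dca_nt

open Finset Filter Real

/-- additive term of the `i`-th iterate -/
def cw : ℕ → ℕ → ℕ
  | 0, _ => 0
  | i + 1, m => (m % 2) * 3 ^ od i (T m) + 2 * cw i (T m)

theorem iter_eq (i m : ℕ) : 2 ^ i * T^[i] m = 3 ^ od i m * m + cw i m := by
  induction i generalizing m with
  | zero => simp [od, cw]
  | succ i ih =>
    have h := ih (T m)
    rw [Function.iterate_succ_apply]
    simp only [od, cw]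
    rcases Nat.even_or_odd' m with ⟨d, rfl | rfl⟩
    · rw [T_even] at h ⊢
      rw [show 2 * d % 2 = 0 by omega, zero_add, pow_succ]
      linarith
    · rw [T_odd] at h ⊢
      rw [show (2 * d + 1) % 2 = 1 by omega, pow_succ, pow_add, pow_one]
      linarith

theorem mod_dep (i : ℕ) : ∀ x y : ℕ, x ≡ y [MOD 2 ^ i] → od i x = od i y ∧ cw i x = cw i y := by
  induction i with
  | zero => intro x y _; simp [od, cw]
  | succ i ih =>
    intro x y h
    have h2 : x % 2 = y % 2 := h.of_dvd (dvd_pow_self 2 (by omega))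
    have h3 : T x ≡ T y [MOD 2 ^ i] := by
      rw [pow_succ'] at h
      rcases Nat.even_or_odd' x with ⟨d, rfl | rfl⟩ <;>
        rcases Nat.even_or_odd' y with ⟨d', rfl | rfl⟩
      · rw [T_even, T_even]
        exact Nat.ModEq.mul_left_cancel' (by norm_num) h
      · omega
      · omega
      · rw [T_odd, T_odd]
        have := Nat.ModEq.mul_left_cancel' (c := 2) (by norm_num) (Nat.ModEq.add_right_cancel' 1 h)
        exact (this.mul_left 3).add_right 2
    obtain ⟨a, b⟩ := ih _ _ h3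
    simp only [od, cw, a, b, h2, and_self]

theorem moment_cw (i : ℕ) : ∀ f M c : ℕ, i ≤ f → M % 2 = 1 →
    ∑ u ∈ range (2 ^ f), (cw i (M * u + c) : ℝ) = 2 ^ f * 2 ^ i * i / 4 := by
  induction i with
  | zero => intro f M c _ _; simp [cw]
  | succ i ih =>
    intro f M c hf hM
    obtain ⟨f, rfl⟩ : ∃ g, f = g + 1 := ⟨f - 1, by omega⟩
    rw [pow_succ', sum_two_mul, sum_add_distrib]
    have ev : ∀ d : ℕ, ∑ u ∈ range (2 ^ f), (cw (i + 1) (2 * (M * u + d)) : ℝ) =
        2 * (2 ^ f * 2 ^ i * i / 4) := by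
      intro d
      rw [← ih f M d (by omega) hM, mul_sum]
      apply sum_congr rfl
      intro u _
      simp only [cw, T_even]
      rw [show 2 * (M * u + d) % 2 = 0 by omega]
      push_cast
      ring
    have odd : ∀ d : ℕ, ∑ u ∈ range (2 ^ f), (cw (i + 1) (2 * (M * u + d) + 1) : ℝ) =
        2 ^ (f - i) * (1 + 3) ^ i + 2 * (2 ^ f * 2 ^ i * i / 4) := by
      intro d
      rw [← ih f (3 * M) (3 * d + 2) (by omega) (by omega), mul_sum,
        ← moment 3 i f (3 * M) (3 * d + 2) (by omega) (by omega), ← sum_add_distrib]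
      apply sum_congr rfl
      intro u _
      simp only [cw, T_odd]
      rw [show (2 * (M * u + d) + 1) % 2 = 1 by omega,
        show 3 * (M * u + d) + 2 = 3 * M * u + (3 * d + 2) by ring]
      push_cast
      ring
    have e0 : (2 : ℝ) ^ (f - i) * (1 + 3) ^ i = 2 ^ f * 2 ^ i := by
      rw [show (1 + 3 : ℝ) = 2 * 2 by norm_num, mul_pow, ← mul_assoc, ← pow_add,
        Nat.sub_add_cancel (by omega)]
    obtain ⟨M', rfl⟩ : ∃ M', M = 2 * M' + 1 := ⟨M / 2, by omega⟩
    rcases Nat.even_or_odd' c with ⟨d, rfl | rfl⟩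
    · have e1 : ∀ u, (2 * M' + 1) * (2 * u) + 2 * d = 2 * ((2 * M' + 1) * u + d) := by
        intro u; ring
      have e2 : ∀ u, (2 * M' + 1) * (2 * u + 1) + 2 * d =
          2 * ((2 * M' + 1) * u + (M' + d)) + 1 := by intro u; ring
      simp only [e1, e2]
      rw [ev, odd, e0]; push_cast; ring
    · have e1 : ∀ u, (2 * M' + 1) * (2 * u) + (2 * d + 1) = 2 * ((2 * M' + 1) * u + d) + 1 := by
        intro u; ring
      have e2 : ∀ u, (2 * M' + 1) * (2 * u + 1) + (2 * d + 1) =
          2 * ((2 * M' + 1) * u + (M' + d + 1)) := by intro u; ring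
      simp only [e1, e2]
      rw [ev, odd, e0]; push_cast; ring

/-- a typical window -/
def Ok (δ D : ℝ) (g x : ℕ) : Prop :=
  (g : ℝ) / 2 - δ * g < od g x ∧ (od g x : ℝ) < g / 2 + δ * g ∧ (cw g x : ℝ) ≤ 2 ^ g * D

open Classical in
theorem bad_card (δ D : ℝ) (hδ : 0 < δ) (hD : 0 < D) (g : ℕ) :
    (((range (2 ^ g)).filter (fun x => ¬ Ok δ D g x)).card : ℝ) ≤
      2 ^ g * ((g + 2) * exp (-(2 * δ ^ 2 * g)) + g / D) := by
  have h1 := atyp_card δ hδ g 1 0 rfl
  have h2 : (((range (2 ^ g)).filter (fun x => 2 ^ g * D < (cw g x : ℝ))).card : ℝ) *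
      (2 ^ g * D) ≤ 2 ^ g * 2 ^ g * g / 4 := by
    rw [← moment_cw g g 1 0 le_rfl rfl, card_eq_sum_ones, Nat.cast_sum, sum_mul, sum_filter]
    apply sum_le_sum
    intro u _
    split_ifs with h
    · simpa using h.le
    · positivity
  have h3 : (((range (2 ^ g)).filter (fun x => 2 ^ g * D < (cw g x : ℝ))).card : ℝ) ≤
      2 ^ g * (g / D) := by
    rw [← mul_div_assoc, le_div_iff₀ hD]
    have p : (0 : ℝ) < 2 ^ g := by positivity
    have : (0 : ℝ) ≤ 2 ^ g * 2 ^ g * g := by positivity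
    apply le_of_mul_le_mul_left _ p
    linarith
  have h4 : (range (2 ^ g)).filter (fun x => ¬ Ok δ D g x) ⊆
      (range (2 ^ g)).filter (fun u => ¬ Typ δ g (1 * u + 0)) ∪
      (range (2 ^ g)).filter (fun x => 2 ^ g * D < (cw g x : ℝ)) := by
    intro x hx
    rw [mem_filter] at hx
    rw [mem_union, mem_filter, mem_filter]
    by_contra hh
    apply hx.2
    simp only [hx.1, true_and, not_or, not_not, not_lt, one_mul, add_zero] at hh
    exact ⟨hh.1.1 g le_rfl, hh.1.2, hh.2⟩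
  have h5 := (Nat.cast_le (α := ℝ)).2 ((card_le_card h4).trans (card_union_le _ _))
  push_cast at h5
  linarith

theorem card_spaced (S : Finset ℕ) (n : ℕ) (sp : ℝ) (hsp : 0 < sp) (hS : S ⊆ range n)
    (h : ∀ a ∈ S, ∀ b ∈ S, a ≠ b → sp ≤ |(a : ℝ) - b|) : S.card ≤ ⌊n / sp⌋₊ + 1 := by
  rw [← card_range (⌊n / sp⌋₊ + 1)]
  apply card_le_card_of_injOn (fun a : ℕ => ⌊(a : ℝ) / sp⌋₊)
  · intro a ha
    have : (a : ℝ) ≤ n := by exact_mod_cast (mem_range.1 (hS ha)).le
    have := Nat.floor_le_floor (div_le_div_of_nonneg_right this hsp.le)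
    simp only [coe_range, Set.mem_Iio]
    omega
  · intro a ha b hb e
    by_contra hne
    have h1 := h a ha b hb hne
    have a1 := Nat.floor_le (show 0 ≤ (a : ℝ) / sp by positivity)
    have a2 := Nat.floor_le (show 0 ≤ (b : ℝ) / sp by positivity)
    have a3 := Nat.lt_floor_add_one ((a : ℝ) / sp)
    have a4 := Nat.lt_floor_add_one ((b : ℝ) / sp)
    simp only at e
    rw [e] at a1 a3
    have a5 : |(a : ℝ) / sp - b / sp| < 1 := by rw [abs_lt]; constructor <;> linarith
    rw [← sub_div, abs_div, abs_of_pos hsp, div_lt_one hsp] at a5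
    linarith

/-- value at the start of window `i` -/
def xw (k g v i : ℕ) : ℕ := T^[i * g] (3 ^ k * (v + 1) - 1)

/-- number of odd steps before window `i` -/
def Aw (k g v i : ℕ) : ℕ := ∑ s ∈ range i, od g (xw k g v s)

def Good (δ z : ℝ) (k g v i : ℕ) : Prop := ∀ s < i, Ok δ (z ^ (s + 1)) g (xw k g v s)

theorem state (δ z : ℝ) (hδ : δ ≤ 1 / 10) (hz : 1 ≤ z) (k g v i : ℕ) (h : Good δ z k g v i) :
    (1 / 2 - δ) * (i * g) ≤ Aw k g v i ∧ Aw k g v i ≤ i * g ∧
    |(2 : ℝ) ^ (i * g) * xw k g v i - 3 ^ (k + Aw k g v i) * (v + 1)| ≤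
      (i + 1) * z ^ i * 2 ^ (i * g) := by
  induction i with
  | zero =>
    refine ⟨by simp [Aw], by simp [Aw], ?_⟩
    have : 1 ≤ 3 ^ k * (v + 1) := Nat.succ_le_of_lt (by positivity)
    simp [Aw, xw, Nat.cast_sub this]
  | succ i ih =>
    obtain ⟨h1, h2, h3⟩ := ih (fun s hs => h s (by omega))
    obtain ⟨o1, o2, o3⟩ := h i (by omega)
    have eA : Aw k g v (i + 1) = Aw k g v i + od g (xw k g v i) := sum_range_succ _ _
    have ex : xw k g v (i + 1) = T^[g] (xw k g v i) := by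
      unfold xw
      rw [← Function.iterate_add_apply]
      congr 1
      ring
    have o4 := od_le g (xw k g v i)
    refine ⟨?_, ?_, ?_⟩
    · rw [eA]; push_cast; linarith
    · rw [eA]; nlinarith
    · have e1 := congrArg (Nat.cast : ℕ → ℝ) (iter_eq g (xw k g v i))
      push_cast at e1
      set o := od g (xw k g v i)
      have e2 : (2 : ℝ) ^ ((i + 1) * g) * xw k g v (i + 1) - 3 ^ (k + Aw k g v (i + 1)) * (v + 1) =
          3 ^ o * ((2 : ℝ) ^ (i * g) * xw k g v i - 3 ^ (k + Aw k g v i) * (v + 1)) +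
          2 ^ (i * g) * cw g (xw k g v i) := by
        rw [ex, eA, add_mul, one_mul, pow_add, mul_assoc, e1, ← add_assoc, pow_add]
        ring
      have e3 : (3 : ℝ) ^ o ≤ 2 ^ g := by
        rw [two_pow_eq, three_pow_eq, exp_le_exp]
        have := l2_lb
        have := l3_ub
        have g0 : (0 : ℝ) ≤ g := by positivity
        have o0 : (0 : ℝ) ≤ o := by positivity
        have : δ * g ≤ 1 / 10 * g := mul_le_mul_of_nonneg_right hδ g0
        nlinarith
      rw [e2]
      refine (abs_add_le _ _).trans ?_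
      rw [abs_mul, abs_mul, abs_of_pos (show (0 : ℝ) < 3 ^ o by positivity),
        abs_of_pos (show (0 : ℝ) < 2 ^ (i * g) by positivity), Nat.abs_cast, add_mul i, one_mul,
        pow_add (2 : ℝ)]
      have z1 : z ^ i ≤ z ^ (i + 1) := pow_le_pow_right₀ hz (by omega)
      have z0 : 0 ≤ z ^ i := by positivity
      calc (3 : ℝ) ^ o * |(2 : ℝ) ^ (i * g) * xw k g v i - 3 ^ (k + Aw k g v i) * (v + 1)| +
            2 ^ (i * g) * cw g (xw k g v i)
          ≤ 2 ^ g * ((i + 1) * z ^ (i + 1) * 2 ^ (i * g)) + 2 ^ (i * g) * (2 ^ g * z ^ (i + 1)) := by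
            gcongr
            exact h3.trans (by gcongr)
        _ = _ := by push_cast; ring

end Pool.Agent.P.MP_bc8dca_nt
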